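import Pool.Agent.Q295.PN.StmK
import Pool.Agent.W925.LP.T1

/-!
# Project PN (helper295), job K5: long exits, exponential bound
-/

set_option autoImplicit false

namespace Pool.Agent.Q198.PN

open MeasureTheory ProbabilityTheory Pool.Agent.W533.LP Pool.Agent.Q295.PN

/-- JOB PN-K5 -/
theorem k5 : S_K5 := by
  intro hK2 hK3 hKM
  obtain ⟨c₃, hc₃, h3⟩ := hK3 hK2
  obtain ⟨c₂, hc₂, h2⟩ := hK2
  obtain ⟨-, ⟨C₁, hC₁, hkm2⟩, -, hkm4⟩ := hKM
  obtain ⟨c₀, hc₀⟩ : ∃ c₀ : ℝ, c₀ = 1 / (16 * C₁) := ⟨_, rfl⟩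
  have hc₀p : 0 < c₀ := by rw [hc₀]; positivity
  have hc₀C : C₁ * c₀ = 1 / 16 := by
    rw [hc₀]
    field_simp
  have hc₀1 : c₀ ≤ 1 / 16 := by nlinarith
  obtain ⟨c, hc⟩ : ∃ c : ℝ, c = min c₂ c₃ := ⟨_, rfl⟩
  have hcp : 0 < c := by rw [hc]; exact lt_min hc₂ hc₃
  have hcc₂ : c ≤ c₂ := by rw [hc]; exact min_le_left _ _
  have hcc₃ : c ≤ c₃ := by rw [hc]; exact min_le_right _ _
  obtain ⟨C, hC⟩ : ∃ C : ℝ, C = 6 + 10 * C₁ + 384 / (c * c₀ ^ 2) := ⟨_, rfl⟩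
  have hCp : 0 < 384 / (c * c₀ ^ 2) := by positivity
  have hC6 : 6 ≤ C := by rw [hC]; linarith
  have hC10 : 10 * C₁ ≤ C := by rw [hC]; linarith
  have hC384 : 384 / (c * c₀ ^ 2) ≤ C := by rw [hC]; linarith
  have hC0 : 0 < C := by linarith
  refine ⟨C, by linarith, ?_⟩
  intro Ω _ μ q a I J W m n u hq hq16 har hn hnm hmn hu hCu hS
  obtain ⟨r, hr⟩ : ∃ r : ℝ, r = Real.sqrt q := ⟨_, rfl⟩
  rw [← hr] at har hCu ⊢
  have hr2 : r ^ 2 = q := by rw [hr]; exact Real.sq_sqrt hq.le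
  have hr0 : 0 < r := by rw [hr]; exact Real.sqrt_pos.2 hq
  have hr4 : r ≤ 1 / 4 := by nlinarith
  obtain ⟨ha1, ha2⟩ := abs_le.1 har
  have ha0 : 0 < a := by linarith
  have hnR : (1 : ℝ) ≤ n := by exact_mod_cast hn
  have hmnR : (m : ℝ) ≤ 2 * n := by exact_mod_cast hmn
  have huR : (u : ℝ) + 1 ≤ m := by exact_mod_cast hu
  obtain ⟨ν, hν⟩ : ∃ ν : ℝ, ν = n * r := ⟨_, rfl⟩
  have hν0 : 0 < ν := by rw [hν]; positivity
  obtain ⟨U, hU⟩ : ∃ U : ℝ, U = ((u : ℝ) + 1) * r := ⟨_, rfl⟩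
  have hU0 : 0 < U := by rw [hU]; positivity
  have hU2 : U ≤ 2 * ν := by
    rw [hU, hν]
    nlinarith
  obtain ⟨δ, hδ⟩ : ∃ δ : ℝ, δ = c₀ * U / ν := ⟨_, rfl⟩
  have hδ0 : 0 < δ := by rw [hδ]; positivity
  have hδν : ν * δ = c₀ * U := by
    rw [hδ]
    field_simp
  have hδ8 : δ ≤ 1 / 8 := by
    rw [hδ, div_le_iff₀ hν0]
    nlinarith
  rw [← hU, ← hν]
  rw [← hU] at hCu
  have haδ0 : 0 < a * δ := mul_pos ha0 hδ0
  have haδ : a * δ ≤ 11 / 10 * r * (1 / 8) := mul_le_mul (by linarith) hδ8 hδ0.le (by positivity)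
  have hqa : q < a := by nlinarith
  have ha'1 : a * (1 + δ) < 1 := by nlinarith
  have haa' : a ≤ a * (1 + δ) := by nlinarith
  obtain ⟨Ω', _, μ', I0, J0, I1, J1, W0, hS0, hS1, hmono⟩ := lCouple q a (a * (1 + δ)) hq hqa haa' ha'1
  rw [(Pool.Agent.W925.LP.transfer lLaw lMeas μ μ' q a I J W I0 J0 W0 hS hS0 m n u).1]
  have hprob : IsProbabilityMeasure μ' := hS0.prob
  obtain ⟨x, hx⟩ : ∃ x : ℝ, x = U * δ / 8 := ⟨_, rfl⟩
  have hx0 : 0 < x := by rw [hx]; positivity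
  obtain ⟨lam, hlam⟩ : ∃ lam : ℝ, lam = 6 * ν := ⟨_, rfl⟩
  have hlam0 : 0 < lam := by rw [hlam]; positivity
  have hxlam : x ≤ lam := by
    rw [hx, hlam]
    nlinarith
  -- the four bad events
  have hmnlam : 2 * ((m : ℝ) + n) * Real.sqrt q ≤ lam := by
    rw [hlam, hν, ← hr]
    nlinarith
  have e1 := (h3 μ' q a lam x I0 J0 W0 m n hq hq16 (by rw [← hr]; linarith) (by rw [← hr]; linarith)
    hS0 hlam0 hmnlam hx0.le hxlam).2
  have e2 := (h3 μ' q (a * (1 + δ)) lam x I1 J1 W0 m n hq hq16 (by rw [← hr]; linarith)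
    (by rw [← hr]; nlinarith) hS1 hlam0 hmnlam hx0.le hxlam).1
  have hulam : ((u + 1 : ℕ) : ℝ) * a ≤ lam := by
    rw [hlam]
    push_cast
    have : ((u : ℝ) + 1) * a ≤ ((u : ℝ) + 1) * (11 / 10 * r) :=
      mul_le_mul_of_nonneg_left (by linarith) (by positivity)
    have h' : ((u : ℝ) + 1) * (11 / 10 * r) = 11 / 10 * U := by rw [hU]; ring
    linarith
  have hulam' : ((u + 1 : ℕ) : ℝ) * (a * (1 + δ)) ≤ lam := by
    rw [hlam]
    push_cast
    have : ((u : ℝ) + 1) * (a * (1 + δ)) ≤ ((u : ℝ) + 1) * (2 * r) :=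
      mul_le_mul_of_nonneg_left (by nlinarith) (by positivity)
    have h' : ((u : ℝ) + 1) * (2 * r) = 2 * U := by rw [hU]; ring
    linarith
  have e3 := (h2 μ' a lam x (u + 1) (fun i : Fin (u + 1) => I0 i) ha0.le (by linarith) hlam0 hulam hx0.le
    hxlam (Pool.Agent.W925.LP.geo_bd hS0 (u + 1))).1
  have e4 := (h2 μ' (a * (1 + δ)) lam x (u + 1) (fun i : Fin (u + 1) => I1 i) (by positivity)
    (by nlinarith) hlam0 hulam' hx0.le hxlam (Pool.Agent.W925.LP.geo_bd hS1 (u + 1))).2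
  -- the means
  have hm2 := hkm2 r a δ m n hr0 hr4 har hδ0 hδ8 hmn hnm
  rw [hr2] at hm2
  have hm4 := hkm4 a δ ha0.le hδ0.le (by nlinarith)
  have hmeans : MM m n q (a * (1 + δ)) + U * δ / 2 ≤
      MM m n q a + ((u : ℝ) + 1) * (mean (a * (1 + δ)) - mean a) := by
    have t1 : 9 / 10 * (U * δ) ≤ ((u : ℝ) + 1) * (mean (a * (1 + δ)) - mean a) := by
      calc 9 / 10 * (U * δ) = ((u : ℝ) + 1) * (9 / 10 * r * δ) := by rw [hU]; ring
        _ ≤ ((u : ℝ) + 1) * (a * δ) := by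
            apply mul_le_mul_of_nonneg_left _ (by positivity)
            exact mul_le_mul_of_nonneg_right (by linarith) hδ0.le
        _ ≤ _ := mul_le_mul_of_nonneg_left hm4 (by positivity)
    have t2 : C₁ * δ * (n * r * δ + |(m : ℝ) - n| * r + n * |a - r|) ≤ 2 / 10 * (U * δ) := by
      have t3 : C₁ * (|(m : ℝ) - n| * r + n * |a - r|) ≤ 1 / 10 * U := by
        have h5 : 0 ≤ |(m : ℝ) - n| * r + n * |a - r| := by positivity
        have h6 : 10 * C₁ * (|(m : ℝ) - n| * r + n * |a - r|) ≤ C * (|(m : ℝ) - n| * r + n * |a - r|) :=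
          mul_le_mul_of_nonneg_right hC10 h5
        linarith
      have t4 : C₁ * (n * r * δ) = 1 / 16 * U := by
        rw [← hν, hδν, ← mul_assoc, hc₀C]
      calc C₁ * δ * (n * r * δ + |(m : ℝ) - n| * r + n * |a - r|) =
            δ * (C₁ * (n * r * δ) + C₁ * (|(m : ℝ) - n| * r + n * |a - r|)) := by ring
        _ ≤ δ * (2 / 10 * U) := by
            apply mul_le_mul_of_nonneg_left _ hδ0.le
            rw [t4]
            linarith
        _ = _ := by ring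
    have hUδ : 0 < U * δ := mul_pos hU0 hδ0
    linarith
  have hsub : Hs I0 J0 W0 u m n ⊆
      ({ω | (Gr I0 J0 W0 m n ω : ℝ) ≤ MM m n q a - x} ∪
        {ω | MM m n q (a * (1 + δ)) + x ≤ (Gr I1 J1 W0 m n ω : ℝ)}) ∪
      ({ω | ((u + 1 : ℕ) : ℝ) * mean a + x ≤ ∑ i : Fin (u + 1), (I0 i ω : ℝ)} ∪
        {ω | ∑ i : Fin (u + 1), (I1 i ω : ℝ) ≤ ((u + 1 : ℕ) : ℝ) * mean (a * (1 + δ)) - x}) := by
    intro ω hω
    by_contra hnot
    simp only [Set.mem_union, Set.mem_ofPred_eq, not_or, not_le] at hnot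
    obtain ⟨⟨n1, n2⟩, n3, n4⟩ := hnot
    have hi := lIncl (fun i => I0 i ω) (fun i => I1 i ω) (fun j => J0 j ω) (fun j => J1 j ω)
      (fun i j => W0 i j ω) u m n (fun i => (hmono i ω).1) (fun j => (hmono j ω).2) hω
    have hps : ps (fun i => I0 i ω) (u + 1) ≤ ps (fun i => I1 i ω) (u + 1) :=
      Finset.sum_le_sum fun i _ => (hmono i ω).1
    have hi2 : (Gr I0 J0 W0 m n ω : ℝ) + ((ps (fun i => I1 i ω) (u + 1) : ℝ) -
        (ps (fun i => I0 i ω) (u + 1) : ℝ)) ≤ Gr I1 J1 W0 m n ω := by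
      rw [← Nat.cast_sub hps]
      exact_mod_cast hi
    rw [Pool.Agent.W925.LP.ps_cast, Pool.Agent.W925.LP.ps_cast] at hi2
    push_cast at n3 n4
    have hx8 : U * δ / 2 = 4 * x := by rw [hx]; ring
    rw [hx8] at hmeans
    linarith
  have hexp : ∀ d : ℝ, c ≤ d → Real.exp (-d * x ^ 2 / lam) ≤ Real.exp (-U ^ 4 / (C * ν ^ 3)) := by
    intro d hd
    apply Real.exp_le_exp.2
    have h5 : -d * x ^ 2 / lam ≤ - (c * x ^ 2 / lam) := by
      rw [neg_mul, neg_div, neg_le_neg_iff]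
      apply div_le_div_of_nonneg_right _ hlam0.le
      exact mul_le_mul_of_nonneg_right hd (by positivity)
    refine h5.trans ?_
    rw [neg_div, neg_le_neg_iff]
    have h6 : c * x ^ 2 / lam = U ^ 4 / (384 / (c * c₀ ^ 2) * ν ^ 3) := by
      rw [hx, hlam, hδ]
      field_simp
      ring
    rw [h6]
    apply div_le_div_of_nonneg_left (by positivity) (by positivity)
    exact mul_le_mul_of_nonneg_right hC384 (by positivity)
  calc μ'.real (Hs I0 J0 W0 u m n) ≤ _ := measureReal_mono hsub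
    _ ≤ (μ'.real {ω | (Gr I0 J0 W0 m n ω : ℝ) ≤ MM m n q a - x} +
          μ'.real {ω | MM m n q (a * (1 + δ)) + x ≤ (Gr I1 J1 W0 m n ω : ℝ)}) +
        (μ'.real {ω | ((u + 1 : ℕ) : ℝ) * mean a + x ≤ ∑ i : Fin (u + 1), (I0 i ω : ℝ)} +
          μ'.real {ω | ∑ i : Fin (u + 1), (I1 i ω : ℝ) ≤ ((u + 1 : ℕ) : ℝ) * mean (a * (1 + δ)) - x}) := by
        refine (measureReal_union_le _ _).trans (add_le_add ?_ ?_)
        · exact measureReal_union_le _ _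
        · exact measureReal_union_le _ _
    _ ≤ (2 * Real.exp (-c₃ * x ^ 2 / lam) + 2 * Real.exp (-c₃ * x ^ 2 / lam)) +
        (Real.exp (-c₂ * x ^ 2 / lam) + Real.exp (-c₂ * x ^ 2 / lam)) :=
        add_le_add (add_le_add e1 e2) (add_le_add e3 e4)
    _ ≤ 6 * Real.exp (-U ^ 4 / (C * ν ^ 3)) := by
        have h5 := hexp c₂ hcc₂
        have h6 := hexp c₃ hcc₃
        linarith
    _ ≤ C * Real.exp (-U ^ 4 / (C * ν ^ 3)) :=
        mul_le_mul_of_nonneg_right hC6 (Real.exp_pos _).le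

end Pool.Agent.Q198.PN
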