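import Pool.Agent.Q295.PN.StmK

/-!
# Project PN (helper295), job KM: calculus of the means
-/

set_option autoImplicit false

namespace Pool.Agent.Q198.PN

open Pool.Agent.W533.LP Pool.Agent.Q295.PN

lemma mean_sub {x y : ℝ} (hx : x < 1) (hy : y < 1) : mean x - mean y = (x - y) / ((1 - x) * (1 - y)) := by
  unfold mean
  have h1 : (1 - x) ≠ 0 := by linarith
  have h2 : (1 - y) ≠ 0 := by linarith
  field_simp
  ring

lemma vari_sub {x y : ℝ} (hx : x < 1) (hy : y < 1) :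
    vari x - vari y = (x - y) * (1 - x * y) / ((1 - x) ^ 2 * (1 - y) ^ 2) := by
  unfold vari
  have h1 : (1 - x) ≠ 0 := by linarith
  have h2 : (1 - y) ≠ 0 := by linarith
  field_simp
  ring

/-- the second mean -/
lemma mean_inv {b δ : ℝ} (hδ : 0 < 1 + δ) (hb : b ≠ 1 + δ) : mean (b / (1 + δ)) = b / (1 + δ - b) := by
  unfold mean
  have h1 : (1 + δ) ≠ 0 := hδ.ne'
  have h2 : 1 + δ - b ≠ 0 := fun h => hb (by linarith)
  have h3 : 1 - b / (1 + δ) = (1 + δ - b) / (1 + δ) := by field_simp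
  rw [h3]
  field_simp

lemma km1 (r θ : ℝ) (m n : ℕ) (hr : 0 < r) (hr4 : r ≤ 1 / 4) (hθ : 0 < θ) (hθ8 : θ ≤ 1 / 8)
    (hmn : 16 * |(m : ℝ) - n| ≤ n * θ) :
    n * r * θ ^ 2 / 4 ≤ MM m n (r ^ 2) (r * (1 + θ)) - MM m n (r ^ 2) (r * (1 + θ / 2)) := by
  have hn0 : (0 : ℝ) ≤ n := Nat.cast_nonneg n
  have hrθ : r * θ ≤ 1 / 32 := by nlinarith
  have hrθ0 : 0 < r * θ := mul_pos hr hθ
  have e1 : r ^ 2 / (r * (1 + θ)) = r / (1 + θ) := by field_simp
  have e2 : r ^ 2 / (r * (1 + θ / 2)) = r / (1 + θ / 2) := by field_simp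
  unfold MM
  rw [e1, e2, mean_inv (by linarith) (by linarith), mean_inv (by linarith) (by linarith)]
  -- the horizontal part
  have d1 : r * θ / 2 / (1 - r) ^ 2 ≤ mean (r * (1 + θ)) - mean (r * (1 + θ / 2)) := by
    rw [mean_sub (by nlinarith) (by nlinarith)]
    have e3 : r * (1 + θ) - r * (1 + θ / 2) = r * θ / 2 := by ring
    rw [e3]
    apply div_le_div_of_nonneg_left (by positivity)
    · apply mul_pos <;> nlinarith
    · have h1 : 1 - r * (1 + θ) ≤ 1 - r := by nlinarith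
      have h2 : 1 - r * (1 + θ / 2) ≤ 1 - r := by nlinarith
      have h3 : 0 ≤ 1 - r * (1 + θ / 2) := by nlinarith
      calc (1 - r * (1 + θ)) * (1 - r * (1 + θ / 2)) ≤ (1 - r) * (1 - r) :=
            mul_le_mul h1 h2 h3 (by linarith)
        _ = (1 - r) ^ 2 := by ring
  -- the vertical part
  have d2 : r / (1 + θ / 2 - r) - r / (1 + θ - r) ≤ r * θ / 2 / (1 - r) ^ 2 * (1 / (1 + 3 * θ / 2)) := by
    have h1 : (1 + θ / 2 - r) ≠ 0 := by linarith
    have h2 : (1 + θ - r) ≠ 0 := by linarith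
    have e3 : r / (1 + θ / 2 - r) - r / (1 + θ - r) = r * θ / 2 / ((1 + θ / 2 - r) * (1 + θ - r)) := by
      rw [div_sub_div _ _ h1 h2]
      congr 1
      ring
    rw [e3, div_mul_div_comm, mul_one]
    apply div_le_div_of_nonneg_left (by positivity)
    · have : 0 < 1 - r := by linarith
      positivity
    · nlinarith [mul_nonneg hθ.le hr.le, mul_nonneg (mul_nonneg hθ.le hr.le) (by linarith : (0 : ℝ) ≤ 1 - r)]
  set K : ℝ := r * θ / 2 / (1 - r) ^ 2 with hK
  have hK0 : r * θ / 2 ≤ K := by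
    rw [hK, le_div_iff₀ (by have : 0 < 1 - r := by linarith
                            positivity)]
    have : (1 - r) ^ 2 ≤ 1 := by nlinarith
    nlinarith
  have hm : (n : ℝ) * (1 - θ / 16) ≤ m := by
    have := (abs_le.1 (show |(m : ℝ) - n| ≤ n * θ / 16 by linarith)).1
    linarith
  have hbr : θ / 2 ≤ (1 - θ / 16) - 1 / (1 + 3 * θ / 2) := by
    have h1 : (0 : ℝ) < 1 + 3 * θ / 2 := by linarith
    have h2 : 1 / (1 + 3 * θ / 2) ≤ 1 - θ / 16 - θ / 2 := by
      rw [div_le_iff₀ h1]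
      nlinarith
    linarith
  have hK1 : 0 ≤ K := le_trans (by positivity) hK0
  calc (n : ℝ) * r * θ ^ 2 / 4 = n * (r * θ / 2) * (θ / 2) := by ring
    _ ≤ n * K * (θ / 2) := by
        apply mul_le_mul_of_nonneg_right _ (by linarith)
        exact mul_le_mul_of_nonneg_left hK0 hn0
    _ ≤ n * K * ((1 - θ / 16) - 1 / (1 + 3 * θ / 2)) :=
        mul_le_mul_of_nonneg_left hbr (mul_nonneg hn0 hK1)
    _ = (n * (1 - θ / 16)) * K - n * (K * (1 / (1 + 3 * θ / 2))) := by ring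
    _ ≤ m * (mean (r * (1 + θ)) - mean (r * (1 + θ / 2))) -
        n * (r / (1 + θ / 2 - r) - r / (1 + θ - r)) := by
        apply sub_le_sub
        · exact mul_le_mul hm d1 hK1 (Nat.cast_nonneg m)
        · exact mul_le_mul_of_nonneg_left d2 hn0
    _ = _ := by ring

lemma km2 (r a δ : ℝ) (m n : ℕ) (hr : 0 < r) (hr4 : r ≤ 1 / 4) (ha : |a - r| ≤ r / 10) (hδ : 0 < δ)
    (hδ8 : δ ≤ 1 / 8) : MM m n (r ^ 2) (a * (1 + δ)) - MM m n (r ^ 2) a ≤
      20 * δ * (n * r * δ + |(m : ℝ) - n| * r + n * |a - r|) := by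
  have hn0 : (0 : ℝ) ≤ n := Nat.cast_nonneg n
  obtain ⟨ha1, ha2⟩ := abs_le.1 ha
  have ha0 : 0 < a := by linarith
  have hbdef : r ^ 2 / (a * (1 + δ)) = r ^ 2 / a / (1 + δ) := by
    rw [div_div]
  unfold MM
  rw [hbdef]
  set b : ℝ := r ^ 2 / a with hb
  have hb0 : 0 < b := by positivity
  have hbr : b ≤ 10 / 9 * r := by
    rw [hb, div_le_iff₀ ha0]
    nlinarith
  have hab : |a - b| ≤ 3 * |a - r| := by
    have h1 : a - b = (a - r) * ((a + r) / a) := by
      rw [hb]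
      field_simp
      ring
    rw [h1, abs_mul, mul_comm]
    apply mul_le_mul_of_nonneg_right _ (abs_nonneg _)
    rw [abs_of_pos (by positivity), div_le_iff₀ ha0]
    linarith
  rw [mean_inv (by linarith) (by linarith)]
  have e1 : mean (a * (1 + δ)) - mean a = δ * (a / ((1 - a) * (1 - a - a * δ))) := by
    rw [mean_sub (by nlinarith) (by linarith)]
    rw [show a * (1 + δ) - a = δ * a by ring, show 1 - a * (1 + δ) = 1 - a - a * δ by ring, mul_div_assoc,
      mul_comm (1 - a - a * δ)]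
  have e2 : b / (1 + δ - b) - mean b = - (δ * (b / ((1 - b) * (1 + δ - b)))) := by
    unfold mean
    have h1 : 1 + δ - b ≠ 0 := by linarith
    have h2 : 1 - b ≠ 0 := by linarith
    field_simp
    ring
  set P : ℝ := (1 - a) * (1 - a - a * δ) with hP
  set Q : ℝ := (1 - b) * (1 + δ - b) with hQ
  have haδ : a * δ ≤ 11 / 40 * (1 / 8) := by
    apply mul_le_mul _ hδ8 hδ.le (by norm_num)
    linarith
  have hP2 : 1 / 2 ≤ P := by
    rw [hP]
    have h1 : (29 / 40 : ℝ) ≤ 1 - a := by linarith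
    have h2 : (69 / 100 : ℝ) ≤ 1 - a - a * δ := by linarith
    calc (1 / 2 : ℝ) ≤ 29 / 40 * (69 / 100) := by norm_num
      _ ≤ _ := mul_le_mul h1 h2 (by norm_num) (by linarith)
  have hQ2 : 1 / 2 ≤ Q := by
    rw [hQ]
    have h1 : (72 / 100 : ℝ) ≤ 1 - b := by linarith
    have h2 : (72 / 100 : ℝ) ≤ 1 + δ - b := by linarith
    calc (1 / 2 : ℝ) ≤ 72 / 100 * (72 / 100) := by norm_num
      _ ≤ _ := mul_le_mul h1 h2 (by norm_num) (by linarith)
  have hQP : |Q - P| ≤ 6 * |a - r| + 2 * δ := by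
    have h1 : Q - P = (a - b) * (2 - a - b) + δ * (1 - b + a * (1 - a)) := by
      rw [hP, hQ]
      ring
    rw [h1]
    refine (abs_add_le _ _).trans (add_le_add ?_ ?_)
    · rw [abs_mul]
      have h2 : |2 - a - b| ≤ 2 := by
        rw [abs_le]
        constructor <;> linarith
      calc |a - b| * |2 - a - b| ≤ (3 * |a - r|) * 2 :=
            mul_le_mul hab h2 (abs_nonneg _) (by positivity)
        _ = _ := by ring
    · rw [abs_mul, abs_of_pos hδ, mul_comm]
      apply mul_le_mul_of_nonneg_right _ hδ.le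
      rw [abs_le]
      constructor <;> nlinarith
  have hPi : 1 / P ≤ 2 := by
    rw [div_le_iff₀ (by linarith)]
    linarith
  have hPi0 : 0 < 1 / P := by
    have : 0 < P := by linarith
    positivity
  have hPQ : 1 / (P * Q) ≤ 4 := by
    rw [div_le_iff₀ (by nlinarith)]
    nlinarith
  have hP0 : P ≠ 0 := by linarith
  have hQ0 : Q ≠ 0 := by linarith
  have hPQ0 : 0 < 1 / (P * Q) := by
    have h1 : 0 < P := by linarith
    have h2 : 0 < Q := by linarith
    positivity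
  have key : (m : ℝ) * (a / P) - n * (b / Q) = ((m : ℝ) - n) * a * (1 / P) + n * (a - b) * (1 / P) +
      n * b * (Q - P) * (1 / (P * Q)) := by
    field_simp
    ring
  have t1 : ((m : ℝ) - n) * a * (1 / P) ≤ 3 * (|(m : ℝ) - n| * r) := by
    calc ((m : ℝ) - n) * a * (1 / P) ≤ |(m : ℝ) - n| * a * (1 / P) := by
          apply mul_le_mul_of_nonneg_right _ hPi0.le
          exact mul_le_mul_of_nonneg_right (le_abs_self _) ha0.le
      _ ≤ |(m : ℝ) - n| * (11 / 10 * r) * 2 := by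
          apply mul_le_mul _ hPi hPi0.le (by positivity)
          exact mul_le_mul_of_nonneg_left (by linarith) (abs_nonneg _)
      _ ≤ _ := by nlinarith [mul_nonneg (abs_nonneg ((m : ℝ) - n)) hr.le]
  have t2 : (n : ℝ) * (a - b) * (1 / P) ≤ 6 * (n * |a - r|) := by
    calc (n : ℝ) * (a - b) * (1 / P) ≤ n * (3 * |a - r|) * (1 / P) := by
          apply mul_le_mul_of_nonneg_right _ hPi0.le
          exact mul_le_mul_of_nonneg_left ((le_abs_self _).trans hab) hn0
      _ ≤ n * (3 * |a - r|) * 2 := by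
          apply mul_le_mul_of_nonneg_left hPi (by positivity)
      _ = _ := by ring
  have t3 : (n : ℝ) * b * (Q - P) * (1 / (P * Q)) ≤ 7 * (n * |a - r|) + 9 * (n * r * δ) := by
    have hb1 : b ≤ 5 / 18 := by linarith
    calc (n : ℝ) * b * (Q - P) * (1 / (P * Q)) ≤ n * b * (6 * |a - r| + 2 * δ) * (1 / (P * Q)) := by
          apply mul_le_mul_of_nonneg_right _ hPQ0.le
          exact mul_le_mul_of_nonneg_left ((le_abs_self _).trans hQP) (by positivity)
      _ ≤ n * b * (6 * |a - r| + 2 * δ) * 4 := by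
          apply mul_le_mul_of_nonneg_left hPQ (by positivity)
      _ = 24 * (n * |a - r|) * b + 8 * (n * δ) * b := by ring
      _ ≤ 24 * (n * |a - r|) * (5 / 18) + 8 * (n * δ) * (10 / 9 * r) := by
          apply add_le_add
          · exact mul_le_mul_of_nonneg_left hb1 (by positivity)
          · exact mul_le_mul_of_nonneg_left hbr (by positivity)
      _ ≤ _ := by nlinarith [mul_nonneg hn0 (abs_nonneg (a - r)), mul_nonneg (mul_nonneg hn0 hr.le) hδ.le]
  calc (m : ℝ) * mean (a * (1 + δ)) + n * (b / (1 + δ - b)) - (m * mean a + n * mean b) =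
        m * (mean (a * (1 + δ)) - mean a) + n * (b / (1 + δ - b) - mean b) := by ring
    _ = δ * ((m : ℝ) * (a / P) - n * (b / Q)) := by
        rw [e1, e2]
        ring
    _ ≤ δ * (3 * (|(m : ℝ) - n| * r) + 6 * (n * |a - r|) + (7 * (n * |a - r|) + 9 * (n * r * δ))) := by
        apply mul_le_mul_of_nonneg_left _ hδ.le
        rw [key]
        linarith
    _ ≤ δ * (20 * (n * r * δ + |(m : ℝ) - n| * r + n * |a - r|)) := by
        apply mul_le_mul_of_nonneg_left _ hδ.le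
        have h1 : 0 ≤ |(m : ℝ) - n| * r := by positivity
        have h2 : 0 ≤ (n : ℝ) * |a - r| := by positivity
        have h3 : 0 ≤ (n : ℝ) * r * δ := by positivity
        linarith
    _ = _ := by ring

lemma half_mul {x y : ℝ} (hx : x ≤ 1 / 2) (hy : y ≤ 1 / 2) : 1 / 4 ≤ (1 - x) * (1 - y) := by
  have h1 : (1 / 2 : ℝ) ≤ 1 - x := by linarith
  have h2 : (1 / 2 : ℝ) ≤ 1 - y := by linarith
  calc (1 / 4 : ℝ) = 1 / 2 * (1 / 2) := by norm_num
    _ ≤ _ := mul_le_mul h1 h2 (by norm_num) (by linarith)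

lemma km3 (x y : ℝ) (hx0 : 0 ≤ x) (hx : x ≤ 1 / 2) (hy0 : 0 ≤ y) (hy : y ≤ 1 / 2) :
    |mean x - mean y| ≤ 4 * |x - y| ∧ |vari x - vari y| ≤ 16 * |x - y| ∧ x ≤ mean x ∧ mean x ≤ 2 * x ∧
      x ≤ vari x ∧ vari x ≤ 4 * x := by
  have h1 := half_mul hx hy
  have hx1 : (0 : ℝ) < 1 - x := by linarith
  refine ⟨?_, ?_, ?_, ?_, ?_, ?_⟩
  · rw [mean_sub (by linarith) (by linarith), abs_div, abs_of_pos (by linarith : 0 < (1 - x) * (1 - y)),
      div_le_iff₀ (by linarith)]
    nlinarith [abs_nonneg (x - y)]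
  · rw [vari_sub (by linarith) (by linarith)]
    have h2 : (1 / 16 : ℝ) ≤ (1 - x) ^ 2 * (1 - y) ^ 2 := by
      have : (1 - x) ^ 2 * (1 - y) ^ 2 = ((1 - x) * (1 - y)) * ((1 - x) * (1 - y)) := by ring
      rw [this]
      nlinarith
    have h3 : |1 - x * y| ≤ 1 := by
      rw [abs_le]
      constructor <;> nlinarith [mul_nonneg hx0 hy0]
    rw [abs_div, abs_mul, abs_of_pos (by linarith : 0 < (1 - x) ^ 2 * (1 - y) ^ 2), div_le_iff₀ (by linarith)]
    calc |x - y| * |1 - x * y| ≤ |x - y| * 1 := mul_le_mul_of_nonneg_left h3 (abs_nonneg _)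
      _ = 16 * |x - y| * (1 / 16) := by ring
      _ ≤ _ := mul_le_mul_of_nonneg_left h2 (by positivity)
  · unfold mean
    rw [le_div_iff₀ hx1]
    nlinarith
  · unfold mean
    rw [div_le_iff₀ hx1]
    nlinarith
  · unfold vari
    rw [le_div_iff₀ (by positivity)]
    have : (1 - x) ^ 2 ≤ 1 := by nlinarith
    nlinarith
  · unfold vari
    rw [div_le_iff₀ (by positivity)]
    have : (1 / 4 : ℝ) ≤ (1 - x) ^ 2 := by nlinarith
    nlinarith

lemma km4 (x δ : ℝ) (hx0 : 0 ≤ x) (hδ : 0 ≤ δ) (h : x * (1 + δ) ≤ 1 / 2) :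
    x * δ ≤ mean (x * (1 + δ)) - mean x := by
  have h0 : 0 ≤ x * δ := mul_nonneg hx0 hδ
  have hx : x ≤ 1 / 2 := by nlinarith
  rw [mean_sub (by linarith) (by linarith)]
  have h1 := half_mul h hx
  have h2 : (1 - x * (1 + δ)) * (1 - x) ≤ 1 := by
    have : 0 ≤ x * (1 + δ) := by nlinarith
    nlinarith
  rw [le_div_iff₀ (by linarith)]
  nlinarith

/-- JOB PN-KM -/
theorem km : S_KM :=
  ⟨km1, ⟨20, by norm_num, fun r a δ m n h1 h2 h3 h4 h5 _ _ => km2 r a δ m n h1 h2 h3 h4 h5⟩, km3, km4⟩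

end Pool.Agent.Q198.PN
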